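import Pool.Agent.H25.SigmaD

set_option autoImplicit false

namespace Pool.Agent.Results.MP_c7df87_gt.Whyburn

open Pool.Agent.H25.DSepDefs Pool.Agent.H25.SigmaDefs

/-- A Tychonoff Whyburn space that is d-separable but not D-separable. -/
theorem result : ∃ (X : Type) (_ : TopologicalSpace X),
    T35Space X ∧ Whyburn X ∧ SmallDSep X ∧ ¬ BigDSep X := by
  have := Pool.Agent.H25.SigmaD.frechet (I := ℝ)
  exact ⟨Sig ℝ, inferInstance, inferInstance, Pool.Agent.H25.SigmaD.whyburn,
    Pool.Agent.H25.SigmaD.dsep, Pool.Agent.H25.SigmaD.not_D (by rw [Cardinal.mk_real]; simp)⟩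

end Pool.Agent.Results.MP_c7df87_gt.Whyburn
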